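import Mathlib
import Pool.Agent.Lib.helper26.CarA

namespace Pool.Agent.Results.MP_768068_al.NotNilpotent
open Pool.Agent.H26Car Finset

section defs
variable {A : Type} [NonUnitalNonAssocRing A] [Module ℚ A] [IsScalarTower ℚ A A]
  [SMulCommClass ℚ A A]

/-- two-sided ideal of the algebra -/
def IsIdeal (I : Submodule ℚ A) : Prop := ∀ a : A, ∀ x ∈ I, a * x ∈ I ∧ x * a ∈ I

/-- `IsProd S n x`: `x` is a product of `n` elements of `S` in some arrangement of parentheses -/
inductive IsProd (S : Set A) : ℕ → A → Prop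
  | one (x : A) : x ∈ S → IsProd S 1 x
  | mul (m n : ℕ) (x y : A) : IsProd S m x → IsProd S n y → IsProd S (m + n) (x * y)

/-- for some `n ≥ 1` all products of `n` elements vanish -/
def Nilp (S : Set A) : Prop := ∃ n, 1 ≤ n ∧ ∀ x, IsProd S n x → x = 0

/-- every finitely generated subalgebra is nilpotent -/
def LocNilp (S : Set A) : Prop :=
  ∀ F : Finset A, (F : Set A) ⊆ S → Nilp (NonUnitalAlgebra.adjoin ℚ (F : Set A) : Set A)

variable (A) in
/-- ascending chain condition on two-sided ideals -/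
def WeaklyNoetherian : Prop :=
  ∀ f : ℕ → Submodule ℚ A, (∀ n, IsIdeal (f n)) → Monotone f → ∃ N, ∀ n ≥ N, f n = f N

variable (A) in
/-- weakly Noetherian, and the largest locally nilpotent ideal exists and is not nilpotent -/
def Counterexample : Prop :=
  WeaklyNoetherian A ∧ ∃ L : Submodule ℚ A,
    IsGreatest {I : Submodule ℚ A | IsIdeal I ∧ LocNilp (I : Set A)} L ∧ ¬ Nilp (L : Set A)

theorem general (φ : A →ₗ[ℚ] R) (hinj : Function.Injective φ)
    (hr : ∀ x, (∃ y, φ y = x) ↔ ∃ N, x ∈ B 0 N) (α β : ℚ) (hα : α ≠ 0) (hαβ : α + β = 1)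
    (hmul : ∀ x y, φ (x * y) = α • (φ x * φ y) + β • (φ y * φ x)) : Counterexample A := by
  classical
  have hJ : ∀ I : Submodule ℚ A, IsIdeal I → JC (I.map φ) := by
    rintro I hI _ ⟨x, hx, rfl⟩ N a ha
    obtain ⟨y, rfl⟩ := (hr a).2 ⟨N, ha⟩
    refine ⟨x * y + y * x, add_mem (hI y x hx).2 (hI y x hx).1, ?_⟩
    rw [map_add, hmul, hmul]
    have : β = 1 - α := by linarith
    subst this
    module
  have hB : ∀ {d d' N : ℕ} {x y : A}, φ x ∈ B d N → φ y ∈ B d' N → φ (x * y) ∈ B (d + d') N := by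
    intro d d' N x y hx hy
    rw [hmul]
    exact add_mem (Submodule.smul_mem _ _ (B_mul hx hy))
      (Submodule.smul_mem _ _ (by rw [add_comm]; exact B_mul hy hx))
  constructor
  · intro f hf hm
    obtain ⟨N, hN⟩ := acc (fun n => (f n).map φ) (fun n => hJ _ (hf n))
      (fun n x ⟨y, _, hy⟩ => (hr x).1 ⟨y, hy⟩) (fun a b hab => Submodule.map_mono (hm hab))
    exact ⟨N, fun n hn => Submodule.map_injective_of_injective hinj (hN n hn)⟩
  have hdir : Directed (· ≤ ·) (B 1) := (B_mono 1).directed_le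
  have hmem : ∀ x, x ∈ (⨆ N, B 1 N).comap φ ↔ ∃ N, φ x ∈ B 1 N := fun x => by
    rw [Submodule.mem_comap, Submodule.mem_iSup_of_directed _ hdir]
  refine ⟨(⨆ N, B 1 N).comap φ, ⟨⟨?_, ?_⟩, ?_⟩, ?_⟩
  · intro a x hx
    obtain ⟨N, hN⟩ := (hmem x).1 hx
    obtain ⟨M, hM⟩ := (hr (φ a)).1 ⟨a, rfl⟩
    have h1 := B_mono 1 (le_max_left N M) hN
    have h2 := B_mono 0 (le_max_right N M) hM
    have h3 : φ (a * x) ∈ B 1 (max N M) := hB (d := 0) (d' := 1) h2 h1
    have h4 : φ (x * a) ∈ B 1 (max N M) := hB (d := 1) (d' := 0) h1 h2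
    exact ⟨(hmem _).2 ⟨_, h3⟩, (hmem _).2 ⟨_, h4⟩⟩
  · intro F hF
    obtain ⟨N, hN⟩ : ∃ N, ∀ x ∈ F, φ x ∈ B 1 N := by
      induction F using Finset.induction_on with
      | empty => exact ⟨0, by simp⟩
      | insert a F _ ih =>
        obtain ⟨N, hN⟩ := ih (fun x hx => hF (by simp [mem_coe.1 hx]))
        obtain ⟨M, hM⟩ := (hmem a).1 (hF (by simp))
        refine ⟨max N M, fun x hx => ?_⟩
        rcases mem_insert.1 hx with rfl | hx
        · exact B_mono 1 (le_max_right N M) hM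
        · exact B_mono 1 (le_max_left N M) (hN x hx)
    have h1 : ∀ x ∈ NonUnitalAlgebra.adjoin ℚ (F : Set A), φ x ∈ B 1 N := by
      intro x hx
      induction hx using NonUnitalAlgebra.adjoin_induction with
      | mem x hx => exact hN x hx
      | add x y _ _ h1 h2 => rw [map_add]; exact add_mem h1 h2
      | zero => simp
      | mul x y _ _ h1 h2 => exact B_anti (by omega) N (hB h1 h2)
      | smul c x _ h1 => rw [map_smul]; exact Submodule.smul_mem _ _ h1
    have h2 : ∀ n x, IsProd (NonUnitalAlgebra.adjoin ℚ (F : Set A) : Set A) n x →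
        φ x ∈ B n N := by
      intro n x hx
      induction hx with
      | one x hx => exact h1 x hx
      | mul m n x y _ _ h1 h2 => exact hB h1 h2
    exact ⟨N + 1, by omega, fun x hx => hinj (by rw [B_bot N (h2 _ x hx), map_zero])⟩
  · rintro I ⟨hI, hL⟩ x hx
    obtain ⟨N, hN⟩ := (hr (φ x)).1 ⟨x, rfl⟩
    refine (hmem x).2 ⟨N, (hJ I hI).mem_of_units ⟨x, hx, rfl⟩ hN fun S T hS hT hc h => ?_⟩
    by_cases e : T.card + 1 ≤ S.card
    · exact E_mem hS hT e
    · exfalso
      obtain ⟨p, hp, hpe⟩ := (hJ I hI).move hS hT hS hS le_rfl (by omega) h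
      obtain ⟨n, hn, hz⟩ := hL {p} (by simpa using hp)
      have hpp : p * p = p := hinj (by
        rw [hmul, hpe, E_mul_eq _ _ _ _ hS, ← add_smul, hαβ, one_smul])
      have hall : ∀ n, IsProd (NonUnitalAlgebra.adjoin ℚ (({p} : Finset A) : Set A) : Set A)
          (n + 1) p := by
        have h0 : IsProd (NonUnitalAlgebra.adjoin ℚ (({p} : Finset A) : Set A) : Set A) 1 p :=
          IsProd.one p (NonUnitalAlgebra.subset_adjoin ℚ (by simp))
        intro n
        induction n with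
        | zero => exact h0
        | succ n ih => have := IsProd.mul _ _ _ _ ih h0; rwa [hpp] at this
      obtain ⟨m, rfl⟩ : ∃ m, n = m + 1 := ⟨n - 1, by omega⟩
      have := hz p (hall m)
      rw [this, map_zero] at hpe
      exact E_ne_zero N S S hS hpe.symm
  · rintro ⟨n, hn, hz⟩
    have rs : ∀ {m n : ℕ}, m ≤ n → range m ⊆ range n := fun h => range_subset_range.2 h
    have hE : ∀ i, i + 1 ≤ n → ∀ c : ℚ, ∃ y ∈ (⨆ N, B 1 N).comap φ,
        φ y = c • E n (range (i + 1)) (range i) := by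
      intro i hi c
      have h1 : c • E n (range (i + 1)) (range i) ∈ B 1 n :=
        Submodule.smul_mem _ _ (E_mem (rs hi) (rs (by omega)) (by simp))
      obtain ⟨y, hy⟩ := (hr _).2 ⟨n, B_anti (by omega) n h1⟩
      exact ⟨y, (hmem y).2 ⟨n, hy ▸ h1⟩, hy⟩
    have key : ∀ i, i + 1 ≤ n → ∃ y, IsProd (((⨆ N, B 1 N).comap φ : Submodule ℚ A) : Set A)
        (i + 1) y ∧ φ y = E n (range (i + 1)) (range 0) := by
      intro i
      induction i with
      | zero =>
        intro hi
        obtain ⟨y, hy, e⟩ := hE 0 hi 1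
        exact ⟨y, IsProd.one y hy, by rw [e, one_smul]⟩
      | succ i ih =>
        intro hi
        obtain ⟨y, hy, e⟩ := ih (by omega)
        obtain ⟨z, hz, e'⟩ := hE (i + 1) hi α⁻¹
        refine ⟨z * y, ?_, ?_⟩
        · have := IsProd.mul _ _ _ _ (IsProd.one z hz) hy
          rwa [add_comm] at this
        · have hne : range 0 ≠ range (i + 1 + 1) := fun h => by simpa using congrArg card h
          rw [hmul, e, e', smul_mul_assoc, mul_smul_comm, E_mul_eq _ _ _ _ (rs (by omega)),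
            E_mul_ne _ _ _ _ _ (rs (by omega)) hne, smul_smul, mul_inv_cancel₀ hα, one_smul,
            smul_zero, smul_zero, add_zero]
    obtain ⟨m, rfl⟩ : ∃ m, n = m + 1 := ⟨n - 1, by omega⟩
    obtain ⟨y, hy, e⟩ := key m le_rfl
    rw [hz y hy, map_zero] at e
    exact E_ne_zero _ _ _ (rs le_rfl) e.symm

end defs

/-- the associative algebra -/
noncomputable def Alg : Subalgebra ℚ R where
  carrier := {x | ∃ N, x ∈ B 0 N}
  mul_mem' := by
    rintro x y ⟨N, hN⟩ ⟨M, hM⟩
    exact ⟨max N M, B_mul (d := 0) (d' := 0) (B_mono 0 (le_max_left N M) hN)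
      (B_mono 0 (le_max_right N M) hM)⟩
  add_mem' := by
    rintro x y ⟨N, hN⟩ ⟨M, hM⟩
    exact ⟨max N M, add_mem (B_mono 0 (le_max_left N M) hN) (B_mono 0 (le_max_right N M) hM)⟩
  algebraMap_mem' := fun c => by
    refine ⟨0, ?_⟩
    rw [Algebra.algebraMap_eq_smul_one, ← sum_E 0]
    refine Submodule.smul_mem _ _ (sum_mem fun S hS => ?_)
    exact E_mem (mem_powerset.1 hS) (mem_powerset.1 hS) le_rfl

theorem result :
    (∃ (A : Type) (_ : NonUnitalNonAssocRing A) (_ : Module ℚ A) (_ : IsScalarTower ℚ A A)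
      (_ : SMulCommClass ℚ A A), (∀ x y z : A, x * y * z = x * (y * z)) ∧ Counterexample A) ∧
    (∃ (A : Type) (_ : NonUnitalNonAssocRing A) (_ : Module ℚ A) (_ : IsScalarTower ℚ A A)
      (_ : SMulCommClass ℚ A A),
      (∀ x y : A, x * x * y = x * (x * y) ∧ y * x * x = y * (x * x)) ∧ Counterexample A) ∧
    (∃ (A : Type) (_ : NonUnitalNonAssocRing A) (_ : Module ℚ A) (_ : IsScalarTower ℚ A A)
      (_ : SMulCommClass ℚ A A),
      (∀ x y : A, x * y = y * x ∧ x * y * (x * x) = x * (y * (x * x))) ∧ Counterexample A) := by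
  have hr : ∀ x, (∃ y, Alg.val.toLinearMap y = x) ↔ ∃ N, x ∈ B 0 N := fun x =>
    ⟨fun ⟨y, hy⟩ => hy ▸ y.2, fun h => ⟨⟨x, h⟩, rfl⟩⟩
  have hA : Counterexample Alg :=
    general Alg.val.toLinearMap Subtype.val_injective hr 1 0 one_ne_zero (by norm_num)
      (fun x y => by simp)
  refine ⟨⟨Alg, inferInstance, inferInstance, inferInstance, inferInstance, mul_assoc, hA⟩,
    ⟨Alg, inferInstance, inferInstance, inferInstance, inferInstance,
      fun x y => ⟨mul_assoc _ _ _, mul_assoc _ _ _⟩, hA⟩, ?_⟩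
  let _ : Invertible (2 : Alg) := ⟨algebraMap ℚ Alg (1 / 2),
    by rw [← map_ofNat (algebraMap ℚ Alg) 2, ← map_mul]; norm_num,
    by rw [← map_ofNat (algebraMap ℚ Alg) 2, ← map_mul]; norm_num⟩
  have hm : ∀ x y : SymAlg Alg, SymAlg.unsym (x * y) =
      (1 / 2 : ℚ) • (SymAlg.unsym x * SymAlg.unsym y + SymAlg.unsym y * SymAlg.unsym x) := by
    intro x y
    rw [SymAlg.unsym_mul, Algebra.smul_def]
    rfl
  let _ : IsScalarTower ℚ (SymAlg Alg) (SymAlg Alg) := ⟨fun c x y => by
    apply SymAlg.unsym_injective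
    simp only [smul_eq_mul, hm, SymAlg.unsym_smul, smul_mul_assoc, mul_smul_comm]
    module⟩
  let _ : SMulCommClass ℚ (SymAlg Alg) (SymAlg Alg) := ⟨fun c x y => by
    apply SymAlg.unsym_injective
    simp only [smul_eq_mul, hm, SymAlg.unsym_smul, smul_mul_assoc, mul_smul_comm]
    module⟩
  let φ : SymAlg Alg →ₗ[ℚ] R :=
    { toFun := fun x => (SymAlg.unsym x : Alg)
      map_add' := fun _ _ => rfl
      map_smul' := fun _ _ => rfl }
  have hj : ∀ x y : SymAlg Alg, x * y = y * x ∧ x * y * (x * x) = x * (y * (x * x)) := by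
    intro x y
    constructor
    · apply SymAlg.unsym_injective
      rw [hm, hm, add_comm]
    · apply SymAlg.unsym_injective
      simp only [hm, smul_add, mul_add, add_mul, smul_mul_assoc, mul_smul_comm, mul_assoc]
      module
  refine ⟨SymAlg Alg, inferInstance, inferInstance, inferInstance, inferInstance, hj, ?_⟩
  refine general φ (fun x y h => SymAlg.unsym_injective (Subtype.val_injective h))
    (fun x => ⟨fun ⟨y, hy⟩ => hy ▸ (SymAlg.unsym y).2, fun h => ⟨SymAlg.sym ⟨x, h⟩, rfl⟩⟩)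
    (1 / 2) (1 / 2) (by norm_num) (by norm_num) (fun x y => ?_)
  change ((SymAlg.unsym (x * y) : Alg) : R) = _
  rw [hm, ← smul_add]
  rfl

end Pool.Agent.Results.MP_768068_al.NotNilpotent
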